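import Pool.Agent.Helper92_SBG.Rd

/-!
Module CBZ: case B, the central step.
-/

set_option autoImplicit false

namespace Pool.Agent.SBG.H46

open Pool.Agent.SBG Sy

/-- Sizes under an operator which respects the weights. -/
lemma f_bound {ι : Type} [Fintype ι] [DecidableEq ι] (f : (ι → ℤ) →+ (ι → ℤ)) (b : ι → ℕ)
    (Cf : ℕ) (hf : ∀ c c', |f (Pi.single c' 1) c| * (b c' : ℤ) ≤ Cf * (b c : ℤ)) (x : ι → ℤ)
    (Y : ℤ) (hY : 0 ≤ Y) (hx : ∀ c, |x c| ≤ Y * b c) (c : ι) :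
    |f x c| ≤ (Fintype.card ι * Cf) * Y * b c := by
  have h1 : x = ∑ c', x c' • (Pi.single c' (1 : ℤ) : ι → ℤ) := by
    funext c
    rw [Finset.sum_apply]
    simp [Pi.single_apply]
  have h2 : f x c = ∑ c', x c' * f (Pi.single c' 1) c := by
    conv_lhs => rw [h1, map_sum, Finset.sum_apply]
    apply Finset.sum_congr rfl
    intro c' _
    rw [map_zsmul, Pi.smul_apply, smul_eq_mul]
  rw [h2]
  calc |∑ c', x c' * f (Pi.single c' 1) c| ≤ ∑ c', |x c' * f (Pi.single c' 1) c| :=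
        Finset.abs_sum_le_sum_abs _ _
    _ ≤ ∑ _c' : ι, Cf * Y * b c := by
        apply Finset.sum_le_sum
        intro c' _
        rw [abs_mul]
        calc |x c'| * |f (Pi.single c' 1) c| ≤ (Y * b c') * |f (Pi.single c' 1) c| :=
              mul_le_mul_of_nonneg_right (hx c') (abs_nonneg _)
          _ = Y * (|f (Pi.single c' 1) c| * b c') := by ring
          _ ≤ Y * (Cf * b c) := mul_le_mul_of_nonneg_left (hf c c') hY
          _ = _ := by ring
    _ = _ := by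
        rw [Finset.sum_const, Finset.card_univ, nsmul_eq_mul]
        ring

lemma f_iter {ι : Type} [Fintype ι] [DecidableEq ι] (f : (ι → ℤ) →+ (ι → ℤ)) (b : ι → ℕ)
    (Cf : ℕ) (hf : ∀ c c', |f (Pi.single c' 1) c| * (b c' : ℤ) ≤ Cf * (b c : ℤ)) (x : ι → ℤ)
    (Y : ℤ) (hY : 0 ≤ Y) (hx : ∀ c, |x c| ≤ Y * b c) (s : ℕ) (hs : s < 4) (c : ι) :
    |f^[s] x c| ≤ ((Fintype.card ι * Cf + 1 : ℕ) : ℤ) ^ 3 * Y * b c := by
  have h1 : ∀ s : ℕ, ∀ c, |f^[s] x c| ≤ ((Fintype.card ι * Cf + 1 : ℕ) : ℤ) ^ s * Y * b c := by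
    intro s
    induction s with
    | zero => intro c; simpa using hx c
    | succ s ih =>
      intro c
      rw [Function.iterate_succ', Function.comp_apply]
      have h2 := f_bound f b Cf hf (f^[s] x) (((Fintype.card ι * Cf + 1 : ℕ) : ℤ) ^ s * Y)
        (by positivity) ih c
      refine h2.trans ?_
      have h3 : (0:ℤ) ≤ ((Fintype.card ι * Cf + 1 : ℕ) : ℤ) ^ s * Y * b c := by positivity
      have h4 : ((Fintype.card ι * Cf + 1 : ℕ) : ℤ) ^ (s + 1) * Y * b c =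
          (Fintype.card ι * Cf) * (((Fintype.card ι * Cf + 1 : ℕ) : ℤ) ^ s * Y) * b c +
          ((Fintype.card ι * Cf + 1 : ℕ) : ℤ) ^ s * Y * b c := by
        rw [pow_succ]
        push_cast
        ring
      rw [h4]
      linarith
  refine (h1 s c).trans ?_
  have h2 : ((Fintype.card ι * Cf + 1 : ℕ) : ℤ) ^ s ≤ ((Fintype.card ι * Cf + 1 : ℕ) : ℤ) ^ 3 := by
    apply pow_le_pow_right₀
    · push_cast
      have : (0:ℤ) ≤ Fintype.card ι * Cf := by positivity
      linarith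
    · omega
  gcongr

/-- Passing from a group to a group which contains its double. -/
lemma factor4 (Λ₁ Λ : AddSubgroup (Fin 2 → ℤ)) (h1 : Λ₁ ≤ Λ) (h2 : ∀ z ∈ Λ, 2 • z ∈ Λ₁)
    (h3 : Λ.relIndex (sat Λ) ≠ 0) :
    Λ₁.relIndex (sat Λ₁) ≠ 0 ∧ Λ₁.relIndex (sat Λ₁) ≤ 4 * Λ.relIndex (sat Λ) := by
  have hs : sat Λ₁ = sat Λ := by
    apply le_antisymm (sat_mono h1)
    rintro a ⟨k, hk, ha⟩
    exact ⟨2 * k, by omega, by rw [mul_smul]; exact h2 _ ha⟩
  rw [hs]
  set d2 : (Fin 2 → ℤ) →+ (Fin 2 → ℤ) := 2 • AddMonoidHom.id (Fin 2 → ℤ) with hd2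
  have hd : ∀ z, d2 z = 2 • z := fun z => rfl
  have hinj : Function.Injective d2 := by
    intro z w hzw
    rw [hd, hd] at hzw
    funext j
    have := congrFun hzw j
    simp only [Pi.smul_apply, nsmul_eq_mul] at this
    push_cast at this
    linarith
  set m2 : (Fin 2 → ℤ) →+ (Fin 2 → ZMod 2) :=
    (Int.castAddHom (ZMod 2)).compLeft (Fin 2) with hm2
  have hidx : m2.ker.index ≠ 0 ∧ m2.ker.index ≤ 4 := by
    rw [AddSubgroup.index_ker]
    have h4 : Nat.card (Fin 2 → ZMod 2) = 4 := by simp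
    constructor
    · exact Nat.card_pos.ne'
    · rw [← h4]
      exact Nat.card_le_card_of_injective (fun x : m2.range => (x : Fin 2 → ZMod 2))
        Subtype.val_injective
  have hmap : (sat Λ).map d2 = m2.ker ⊓ sat Λ := by
    ext z
    constructor
    · rintro ⟨w, hw, rfl⟩
      refine ⟨?_, ?_⟩
      · change m2 (d2 w) = 0
        funext j
        change (((2 • w) j : ℤ) : ZMod 2) = 0
        rw [ZMod.intCast_zmod_eq_zero_iff_dvd]
        exact ⟨w j, by simp⟩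
      · exact (sat Λ).nsmul_mem hw 2
    · rintro ⟨hz1, hz2⟩
      replace hz1 : m2 z = 0 := hz1
      have h5 : ∀ j, (2 : ℤ) ∣ z j := by
        intro j
        have h6 := congrFun hz1 j
        change ((z j : ℤ) : ZMod 2) = 0 at h6
        have h7 := (ZMod.intCast_zmod_eq_zero_iff_dvd _ 2).1 h6
        exact_mod_cast h7
      choose w hw using h5
      have h6 : z = 2 • w := by
        funext j
        rw [hw j]
        simp
      obtain ⟨k, hk, ha⟩ := hz2
      refine ⟨w, ⟨k * 2, by omega, ?_⟩, ?_⟩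
      · rw [mul_smul, ← h6]; exact ha
      · rw [hd, h6]
  have h5 : (Λ.map d2).relIndex (sat Λ) = Λ.relIndex (sat Λ) * m2.ker.relIndex (sat Λ) := by
    rw [← AddSubgroup.relIndex_mul_relIndex (Λ.map d2) ((sat Λ).map d2) (sat Λ)
      (AddSubgroup.map_mono (le_sat Λ)) (by rw [hmap]; exact inf_le_right),
      AddSubgroup.relIndex_map_map_of_injective _ _ hinj, hmap, AddSubgroup.inf_relIndex_right]
  have h6 : m2.ker.relIndex (sat Λ) ≠ 0 ∧ m2.ker.relIndex (sat Λ) ≤ 4 := by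
    have h7 := AddSubgroup.relIndex_dvd_index_of_normal m2.ker (sat Λ)
    constructor
    · intro h0
      rw [h0, zero_dvd_iff] at h7
      exact hidx.1 h7
    · exact (Nat.le_of_dvd (Nat.pos_of_ne_zero hidx.1) h7).trans hidx.2
  have h7 : Λ.map d2 ≤ Λ₁ := by
    rintro _ ⟨z, hz, rfl⟩
    exact h2 z hz
  have h8 : (Λ.map d2).relIndex (sat Λ) ≠ 0 := by
    rw [h5]
    exact mul_ne_zero h3 h6.1
  have h9 := AddSubgroup.relIndex_dvd_of_le_left (sat Λ) h7
  constructor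
  · intro h0
    rw [h0, zero_dvd_iff] at h9
    exact h8 h9
  · refine (Nat.le_of_dvd (Nat.pos_of_ne_zero h8) h9).trans ?_
    rw [h5, mul_comm]
    exact Nat.mul_le_mul_right _ h6.2

/-- The coordinates of the kernel of the operator. -/
def bad {k : ℕ} : Jx k → Bool
  | Sum.inl (Sum.inl (_, s)) => decide (s = a1 ∨ s = b1 ∨ s = c1 ∨ s = yb ∨ s = yc)
  | Sum.inl (Sum.inr j) => decide (j = 2)
  | Sum.inr _ => true

/-- The exponents of the weights. -/
def ew {k : ℕ} (c : Jx k) : ℕ := wt c + if wt c = 5 then 2 else 0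

lemma bad_sum (k : ℕ) (g : Jx k → ℕ) (u : Sy → ℕ) (v : Fin 3 → ℕ) (w : Fin 2 → ℕ)
    (h1 : ∀ i s, g (Sum.inl (Sum.inl (i, s))) = u s) (h2 : ∀ j, g (Sum.inl (Sum.inr j)) = v j)
    (h3 : ∀ j, g (Sum.inr j) = w j) :
    ∑ c ∈ Finset.univ.filter (fun c : Jx k => bad c = true), g c =
      k * (u a1 + u b1 + u c1 + u yb + u yc) + v 2 + (w 0 + w 1) := by
  rw [Finset.sum_filter, Fintype.sum_sum_type, Fintype.sum_sum_type, Fintype.sum_prod_type]
  have e1 : ∀ i : Fin k, (∑ s : Sy, if bad (Sum.inl (Sum.inl (i, s)) : Jx k) = true then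
      g (Sum.inl (Sum.inl (i, s))) else 0) = u a1 + u b1 + u c1 + u yb + u yc := by
    intro i
    simp only [bad, h1]
    have : (Finset.univ : Finset Sy) =
      {a1, a2, a3, b1, b2, b3, c1, c2, c3, u1, u2, u3, v1, v2, v3, yb, yc, qb, qc} := rfl
    rw [this]
    simp [Finset.sum_insert]
    ring
  have e2 : (∑ j : Fin 3, if bad (Sum.inl (Sum.inr j) : Jx k) = true then
      g (Sum.inl (Sum.inr j)) else 0) = v 2 := by
    simp only [bad, h2]
    simp
  have e3 : (∑ j : Fin 2, if bad (Sum.inr j : Jx k) = true then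
      g (Sum.inr j) else 0) = w 0 + w 1 := by
    simp only [bad, h3]
    simp
  rw [Finset.sum_congr rfl fun i _ => e1 i, e2, e3]
  simp

lemma bad_card (k : ℕ) : (Finset.univ.filter (fun c : Jx k => bad c = true)).card = 5 * k + 3 := by
  rw [Finset.card_eq_sum_ones, bad_sum k (fun _ => 1) (fun _ => 1) (fun _ => 1) (fun _ => 1)
    (fun _ _ => rfl) (fun _ => rfl) (fun _ => rfl)]
  ring

lemma bad_ew (k : ℕ) : ∑ c ∈ Finset.univ.filter (fun c : Jx k => bad c = true), ew c =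
    19 * k + 17 := by
  rw [bad_sum k ew (fun s => s.wt + if s.wt = 5 then 2 else 0)
    (fun j => ((j : ℕ) + 1) + if (j : ℕ) + 1 = 5 then 2 else 0) (fun _ => 7)
    (fun _ _ => rfl) (fun _ => rfl) (fun _ => rfl)]
  simp [Sy.wt]
  ring

/-- **CBZ.** -/
theorem cbz (hkpl : KplStmt) (hcru : CruStmt) (hhmg : HmgStmt) (hfsz : FszStmt) : CbzStmt := by
  intro k A
  obtain ⟨Cf, hCf⟩ := hfsz k A
  obtain ⟨CK, hCK⟩ := hkpl (Jx k) Cf
  set M : ℕ := Fintype.card (Jx k) * Cf + 1 with hM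
  obtain ⟨CR, hCR⟩ := hcru k (M ^ 3 * A) 2
  set C₂ : ℕ := A + 16 * k * (M ^ 3 * A) ^ 2 + 1 with hC₂
  refine ⟨CR + 4 * (CK * C₂ ^ (5 * k + 3)), ?_⟩
  intro n hn h Ys H hm0 hmA hhx hYs hH
  have hn1 : (1 : ℤ) ≤ n := by exact_mod_cast hn
  have hn0 : (0 : ℤ) ≤ n := by linarith
  obtain ⟨hf1, hf2⟩ := hCf n hn h hm0 hmA hhx
  obtain ⟨_, hLM, L, hLf, hLY, hLB, hLm, hL1, hL2⟩ := hhmg k h Ys H hm0 hH
  set f := fop h with hf
  set b : Jx k → ℕ := fun c => n ^ ew c with hb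
  have hbpos : ∀ c, 0 < b c := fun c => pow_pos (by omega) _
  have hbf : ∀ c c', |f (Pi.single c' 1) c| * (b c' : ℤ) ≤ Cf * (b c : ℤ) := by
    intro c c'
    have := hf1 c c'
    simpa only [hb, ew, Nat.cast_pow] using this
  have hbI : ∀ c : Ix k, (b (Sum.inl c) : ℤ) = (n : ℤ) ^ wtI c := by
    intro c
    have h1 : wtI c ≠ 5 := by
      rcases c with ⟨i, s⟩ | j
      · cases s <;> simp [wtI, Sy.wt]
      · fin_cases j <;> simp [wtI]
    simp only [hb, ew, wt, h1, if_false, add_zero, Nat.cast_pow]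
  have hbZ : ∀ j, (b (Sum.inr j) : ℤ) = (n : ℤ) ^ 7 := by
    intro j
    simp only [hb, ew, wt, if_true, Nat.cast_pow]
  -- sizes of the elements of `Ys`
  have hYb : ∀ y ∈ Ys, ∀ c, |y c| ≤ ((A : ℤ) * (n : ℤ) ^ 2) * b c := by
    intro y hy c
    rcases c with c | j
    · rw [hbI]
      refine ((hYs y hy).1 c).trans (le_of_eq ?_)
      rw [pow_add]; ring
    · rw [hbZ]
      refine ((hYs y hy).2 j).trans (le_of_eq ?_)
      ring
  have hYf : ∀ y ∈ Ys, ∀ s < 4, ∀ c, |f^[s] y c| ≤ (M : ℤ) ^ 3 * ((A : ℤ) * (n : ℤ) ^ 2) * b c :=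
    fun y hy s hs c => f_iter f b Cf hbf y _ (by positivity) (hYb y hy) s hs c
  constructor
  · -- the image in `V k`
    set X : Finset (V k) := (Ys ×ˢ Finset.range 4).image fun p => pv (f^[p.2] p.1) with hX
    have hXs : (X : Set (V k)) = {v | ∃ y ∈ Ys, ∃ s < 4, v = pv (f^[s] y)} := by
      ext v
      rw [hX, Finset.mem_coe, Finset.mem_image]
      constructor
      · rintro ⟨⟨y, s⟩, hp, rfl⟩
        rw [Finset.mem_product, Finset.mem_range] at hp
        exact ⟨y, hp.1, s, hp.2, rfl⟩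
      · rintro ⟨y, hy, s, hs, rfl⟩
        exact ⟨(y, s), Finset.mem_product.2 ⟨hy, Finset.mem_range.2 hs⟩, rfl⟩
    have h1 := hCR n hn X (fun v hv c => by
      have hv' : v ∈ (X : Set (V k)) := hv
      rw [hXs] at hv'
      obtain ⟨y, hy, s, hs, rfl⟩ := hv'
      refine (hYf y hy s hs (Sum.inl c)).trans (le_of_eq ?_)
      rw [hbI, pow_add]
      push_cast
      ring)
    rw [hXs, ← hLM] at h1
    refine ⟨h1.1, h1.2.trans ?_⟩
    have e : 46 * k + 6 + 2 * (19 * k + 3) = 84 * k + 12 := by ring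
    rw [e]
    exact Nat.mul_le_mul_right _ (Nat.le_add_right _ _)
  · -- the centre
    set Ys' : Finset (W k) := Ys ∪ (((Ys ×ˢ Ys) ×ˢ (Finset.range 4 ×ˢ Finset.range 4)).image
      fun p => Bf (f^[p.2.1] p.1.1) (f^[p.2.2] p.1.2)) with hYs'
    have hYs's : (Ys' : Set (W k)) = (Ys : Set (W k)) ∪
        {x | ∃ y ∈ Ys, ∃ y' ∈ Ys, ∃ s < 4, ∃ s' < 4, x = Bf (f^[s] y) (f^[s'] y')} := by
      ext v
      rw [hYs', Finset.coe_union]
      constructor
      · rintro (hv | hv)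
        · exact Or.inl hv
        · rw [Finset.mem_coe, Finset.mem_image] at hv
          obtain ⟨⟨⟨y, y'⟩, s, s'⟩, hp, rfl⟩ := hv
          simp only [Finset.mem_product, Finset.mem_range] at hp
          exact Or.inr ⟨y, hp.1.1, y', hp.1.2, s, hp.2.1, s', hp.2.2, rfl⟩
      · rintro (hv | ⟨y, hy, y', hy', s, hs, s', hs', rfl⟩)
        · exact Or.inl hv
        · right
          rw [Finset.mem_coe, Finset.mem_image]
          refine ⟨((y, y'), (s, s')), ?_, rfl⟩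
          simp only [Finset.mem_product, Finset.mem_range]
          exact ⟨⟨hy, hy'⟩, hs, hs'⟩
    have hYpos : 0 < C₂ * n ^ 2 := by
      have : 0 < n ^ 2 := pow_pos (by omega) _
      have : 0 < C₂ := by omega
      positivity
    have hYb' : ∀ y ∈ Ys', y ∈ L ∧ ∀ c, |y c| ≤ ((C₂ * n ^ 2 : ℕ) : ℤ) * b c := by
      intro y hy
      have hy' : y ∈ (Ys' : Set (W k)) := hy
      rw [hYs's] at hy'
      rcases hy' with hy' | ⟨y₁, hy₁, y₂, hy₂, s, hs, s', hs', rfl⟩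
      · refine ⟨hLY y hy', fun c => (hYb y hy' c).trans ?_⟩
        push_cast
        have h1 : (0:ℤ) ≤ (16 * k * (M ^ 3 * A) ^ 2 + 1) * (n : ℤ) ^ 2 * b c := by positivity
        rw [hC₂]
        push_cast
        linarith
      · refine ⟨hLB _ hy₁ _ hy₂ s hs s' hs', ?_⟩
        intro c
        rcases c with c | j
        · have h1 : Bf (f^[s] y₁) (f^[s'] y₂) (Sum.inl c) = 0 := rfl
          rw [h1, abs_zero]
          positivity
        · have h1 : Bf (f^[s] y₁) (f^[s'] y₂) (Sum.inr j) = bz (f^[s] y₁) (f^[s'] y₂) j := rfl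
          rw [h1, hbZ]
          have h2 := bz_bound hn (f^[s] y₁) (f^[s'] y₂) ((M : ℤ) ^ 3 * ((A : ℤ) * (n : ℤ) ^ 2))
            ((M : ℤ) ^ 3 * ((A : ℤ) * (n : ℤ) ^ 2)) (by positivity) (by positivity)
            (fun c => by rw [← hbI]; exact hYf y₁ hy₁ s hs (Sum.inl c))
            (fun c => by rw [← hbI]; exact hYf y₂ hy₂ s' hs' (Sum.inl c)) j
          refine h2.trans ?_
          have h3 : (0:ℤ) ≤ ((A : ℤ) + 1) * (n : ℤ) ^ 2 * (n : ℤ) ^ 7 := by positivity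
          rw [hC₂]
          push_cast
          have h4 : 16 * (k : ℤ) * ((M : ℤ) ^ 3 * (A * (n : ℤ) ^ 2) * ((M : ℤ) ^ 3 *
              (A * (n : ℤ) ^ 2))) * (n : ℤ) ^ 5 =
              16 * k * ((M : ℤ) ^ 3 * A) ^ 2 * (n : ℤ) ^ 2 * (n : ℤ) ^ 7 := by ring
          rw [h4]
          nlinarith
    obtain ⟨I, hI1, hI2, hI3⟩ := hCK b hbpos (C₂ * n ^ 2) hYpos f hbf L hLf Ys' hYb'
      (by rw [hYs's]; exact hLm)
    -- the set of coordinates
    have hIF : I ⊆ Finset.univ.filter (fun c : Jx k => bad c = true) := by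
      intro c hc
      rw [Finset.mem_filter]
      refine ⟨Finset.mem_univ _, ?_⟩
      rcases c with c | j
      · obtain ⟨x, hx, hxc⟩ := hI1 _ hc
        have hx2 : f x = 0 := hx.2
        rcases hf2 x hx2 c hxc with rfl | ⟨i, rfl⟩ | ⟨i, rfl⟩ | ⟨i, rfl⟩ | ⟨i, rfl⟩ | ⟨i, rfl⟩ <;>
          rfl
      · rfl
    have hprod : (C₂ * n ^ 2) ^ I.card * ∏ c ∈ I, b c ≤ C₂ ^ (5 * k + 3) * n ^ (29 * k + 23) := by
      have h1 : (C₂ * n ^ 2) ^ I.card * ∏ c ∈ I, b c = ∏ c ∈ I, (C₂ * n ^ 2) * b c := by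
        rw [Finset.prod_mul_distrib, Finset.prod_const]
      rw [h1]
      calc ∏ c ∈ I, (C₂ * n ^ 2) * b c ≤
            ∏ c ∈ Finset.univ.filter (fun c : Jx k => bad c = true), (C₂ * n ^ 2) * b c := by
            apply Finset.prod_le_prod_of_subset_of_one_le' hIF
            intro c _ _
            exact Nat.mul_pos hYpos (hbpos c)
        _ = (C₂ * n ^ 2) ^ (5 * k + 3) * n ^ (19 * k + 17) := by
            rw [Finset.prod_mul_distrib, Finset.prod_const, bad_card, hb,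
              Finset.prod_pow_eq_pow_sum, bad_ew]
        _ = C₂ ^ (5 * k + 3) * n ^ (29 * k + 23) := by
            rw [mul_pow, ← pow_mul, mul_assoc, ← pow_add]
            congr 2
            ring
    -- the central part of the kernel
    set K : AddSubgroup (W k) := L ⊓ f.ker with hK
    have hzk : ∀ z : Fin 2 → ℤ, f (zin z : W k) = 0 := by
      intro z
      rw [hf]
      simp [fop, tp_zin]
    let zh : (Fin 2 → ℤ) →+ W k := AddMonoidHom.mk' zin zin_add
    have hzh : ∀ z, zh z = zin z := fun _ => rfl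
    set Λ : AddSubgroup (Fin 2 → ℤ) := K.comap zh with hΛ
    have hmemΛ : ∀ z, z ∈ Λ ↔ (zin z : W k) ∈ L := by
      intro z
      rw [hΛ, AddSubgroup.mem_comap, hzh, hK]
      exact ⟨fun h => h.1, fun h => ⟨h, hzk z⟩⟩
    have hsat : (sat Λ).map zh ≤ sat K := by
      rintro _ ⟨z, ⟨j, hj, hz⟩, rfl⟩
      refine ⟨j, hj, ?_⟩
      rw [← map_nsmul]
      exact hz
    have h1 : Λ.relIndex (sat Λ) = K.relIndex ((sat Λ).map zh) := by
      rw [hΛ, AddSubgroup.relIndex_comap]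
    have h2 : Λ.relIndex (sat Λ) ≠ 0 := by
      rw [h1]
      intro h0
      exact hI2 (AddSubgroup.relIndex_eq_zero_of_le_right hsat h0)
    have h3 : Λ.relIndex (sat Λ) ≤ K.relIndex (sat K) := by
      rw [h1]
      exact AddSubgroup.relIndex_le_of_le_right hsat hI2
    obtain ⟨h4, h5⟩ := factor4 (Lam H) Λ (fun z hz => (hmemΛ z).2 (hL2 z hz))
      (fun z hz => hL1 z ((hmemΛ z).1 hz)) h2
    refine ⟨h4, h5.trans ?_⟩
    calc 4 * Λ.relIndex (sat Λ) ≤ 4 * (CK * (C₂ * n ^ 2) ^ I.card * ∏ c ∈ I, b c) :=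
          Nat.mul_le_mul_left _ (h3.trans hI3)
      _ = 4 * (CK * ((C₂ * n ^ 2) ^ I.card * ∏ c ∈ I, b c)) := by rw [mul_assoc CK]
      _ ≤ 4 * (CK * (C₂ ^ (5 * k + 3) * n ^ (29 * k + 23))) :=
          Nat.mul_le_mul_left _ (Nat.mul_le_mul_left _ hprod)
      _ = (4 * (CK * C₂ ^ (5 * k + 3))) * n ^ (29 * k + 23) := by ring
      _ ≤ _ := Nat.mul_le_mul_right _ (Nat.le_add_left _ _)

end Pool.Agent.SBG.H46
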